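import Pool.Agent.TH708.Ips.Main
import Pool.Agent.TH708.Ips.Big

set_option autoImplicit false

/-!
# Narrow algebraic refutations are long

The equation `∑ i j, z i j * x i * x j = β` has no solution with Boolean `x i`, `z i j` in a field of
characteristic zero, if `β` is not a small natural number.  We consider its linear algebraic
refutations (linear IPS, Nullstellensatz with a succinctly given coefficient)

`f * (∑ i j, z i j * x i * x j - β) + ∑ v, h v * (v ^ 2 - v) = 1`

in which `f` is computed (at Boolean points) by an algebraic branching program every path of which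
reads every `x i` at most once; the variables `z i j` can be used in any way and the labels may
contain arbitrary functions of them.  If the width is at most `n ^ (1/128)`, the length is at least
`2 ^ ((log n)² / 1200) = n ^ (log n / 1200)`.

Proof idea: for every half `Y` of the variables, a matching between `Y` and its complement is
encoded in `z`; then `f` is the inverse of `∑ x y x (σ y) - β`, whose matrix with respect to `Y` and
its complement has full rank, since the iterated differences of `1 / (k - β)` do not vanish.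
-/

namespace Pool.Agent.Results.MP_576eff_lc.NarrowRefutations

open Finset
open Pool.Agent.TH708.Ari
open Pool.Agent.TH708.Ips

theorem bound {K : Type} [Field K] (β : K) {n w L m : ℕ}
    (P : Prog K (Fin n ⊕ (Fin n × Fin n)) w) (T : Finset (Fin n))
    (hfac : (T.card.factorial : K) ≠ 0) (hT : 10 ^ 4 ≤ Nat.log 2 T.card)
    (hw : w ^ 128 ≤ T.card) (hm : m ^ 4 ≤ T.card ^ 3)
    (hv : ∀ d v u ℓ, P.edge d v u = some ℓ → (T.filter fun i => Sum.inl i ∈ ℓ.vars).card ≤ m)
    (hd : ∀ i ∈ T, P.deg (Sum.inl i) L P.src ≤ 1) (hI : Inverts β (P.eval L)) :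
    2 ^ ((Nat.log 2 T.card) ^ 2 / 1200) ≤ L := by
  refine narrow_prog P _ hI.isCount T (fun s hs => ?_) hT hw hm hv hd
  have hTn : T.card ≤ n := by
    have := card_le_univ T
    rwa [Fintype.card_fin] at this
  refine hI.diff s (by omega) ?_
  have hdvd : s.factorial ∣ T.card.factorial := Nat.factorial_dvd_factorial (by omega)
  obtain ⟨q, hq⟩ := hdvd
  intro h0
  apply hfac
  rw [hq]
  push_cast
  rw [h0, zero_mul]

theorem result :
    (∀ (K : Type) [Field K] (β : K) (n w L m : ℕ)
      (P : Prog K (Fin n ⊕ (Fin n × Fin n)) w) (T : Finset (Fin n)),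
      (T.card.factorial : K) ≠ 0 → 10 ^ 4 ≤ Nat.log 2 T.card → w ^ 128 ≤ T.card →
      m ^ 4 ≤ T.card ^ 3 →
      (∀ d v u ℓ, P.edge d v u = some ℓ → (T.filter fun i => Sum.inl i ∈ ℓ.vars).card ≤ m) →
      (∀ i ∈ T, P.deg (Sum.inl i) L P.src ≤ 1) → Inverts β (P.eval L) →
        2 ^ ((Nat.log 2 T.card) ^ 2 / 1200) ≤ L) ∧
    ∀ c : ℕ, ∃ N₀ : ℕ, ∀ n ≥ N₀, ∀ (K : Type) [Field K] [CharZero K] (β : K),
      ¬ ∃ (w L : ℕ) (P : Prog K (Fin n ⊕ (Fin n × Fin n)) w)
        (f : MvPolynomial (Fin n ⊕ (Fin n × Fin n)) K)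
        (h : Fin n ⊕ (Fin n × Fin n) → MvPolynomial (Fin n ⊕ (Fin n × Fin n)) K),
        Refutes (form n β) f h ∧
        (∀ p, (∀ v, p v = 0 ∨ p v = 1) → P.eval L p = MvPolynomial.eval p f) ∧
        (∀ i : Fin n, P.deg (Sum.inl i) L P.src ≤ 1) ∧
        (∀ d v u ℓ, P.edge d v u = some ℓ → ∀ i : Fin n, Sum.inl i ∉ ℓ.vars) ∧
        w ^ 128 ≤ n ∧ L ≤ n ^ c + c := by
  refine ⟨fun K _ β n w L m P T h1 h2 h3 h4 h5 h6 h7 => bound β P T h1 h2 h3 h4 h5 h6 h7, ?_⟩
  intro c
  obtain ⟨N₀, hN₀⟩ := exists_big c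
  refine ⟨N₀, fun n hn K _ _ β => ?_⟩
  rintro ⟨w, L, P, f, h, g1, g2, g3, g4, g5, g6⟩
  obtain ⟨hn1, hn2⟩ := hN₀ n hn
  have hcard : (Finset.univ : Finset (Fin n)).card = n := by
    rw [Finset.card_univ, Fintype.card_fin]
  have hb := bound (m := 0) β P Finset.univ
    (by exact_mod_cast Nat.factorial_ne_zero _) (by rw [hcard]; exact hn2)
    (by rw [hcard]; exact g5) (by simp) (by
      intro d v u ℓ hℓ
      simp [g4 d v u ℓ hℓ]) (fun i _ => g3 i) (g1.inverts g2)
  rw [hcard] at hb
  exact big c hn1 g6 hb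

end Pool.Agent.Results.MP_576eff_lc.NarrowRefutations
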